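import Pool.Agent.Lib.MP_4fbe7c_an.WN.Base

/-!
Project WN (MP_4fbe7c_an), module DSW (helper69): the functional decreases.  The formula of DVW
and the algebraic inequality of ALG in every coordinate at every point.
-/

set_option autoImplicit false

open Set MeasureTheory

namespace Pool.Agent.Lib.MP_4fbe7c_an.WN.H69

open Pool.Agent.Lib.MP_4fbe7c_an.UL Pool.Agent.Lib.MP_4fbe7c_an.ND

/-! ### Continuity -/

lemma cont_Ph1 : ContinuousOn Ph1 (Ioi 0) := by
  have h : ContinuousOn (fun r : ℝ => -((1 - min r 1) ^ 2 / min r 1)) (Ioi 0) := by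
    have hm : ContinuousOn (fun r : ℝ => min r 1) (Ioi 0) :=
      (continuous_id.min continuous_const).continuousOn
    exact ((((continuousOn_const (c := (1 : ℝ))).sub hm).pow 2).div hm
      fun r hr => (lt_min (show (0 : ℝ) < r from hr) one_pos).ne').neg
  refine h.congr fun r _ => ?_
  unfold Ph1
  dsimp only
  split_ifs with h1
  · rw [min_eq_left h1.le]
  · rw [min_eq_right (not_lt.mp h1)]
    norm_num

lemma cont_Ph2 : ContinuousOn Ph2 (Ioi 0) := by
  have h : ContinuousOn (fun r : ℝ => 1 / min r 1 ^ 2 - 1) (Ioi 0) := by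
    have hm : ContinuousOn (fun r : ℝ => min r 1) (Ioi 0) :=
      (continuous_id.min continuous_const).continuousOn
    exact ((continuousOn_const (c := (1 : ℝ))).div (hm.pow 2)
      fun r hr => (pow_pos (lt_min (show (0 : ℝ) < r from hr) one_pos) 2).ne').sub
        continuousOn_const
  refine h.congr fun r _ => ?_
  unfold Ph2
  dsimp only
  split_ifs with h1
  · rw [min_eq_left h1.le]
  · rw [min_eq_right (not_lt.mp h1)]
    norm_num

section cont

variable {X : Type*} [TopologicalSpace X] {I : Set X} {n : ℕ} {κ : ℕ → ℝ} {a b : ℝ}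
  {r : X → ℕ → ℝ} {E : Type*} [NormedAddCommGroup E] [NormedSpace ℝ E] {z : X → ℕ → E}

omit [NormedSpace ℝ E] in
lemma cont_qv (hz : ∀ i, i ≤ n → ContinuousOn (fun x => z x i) I) (k : ℕ) :
    ContinuousOn (fun x => qv n (z x) k) I := by
  unfold qv
  exact continuousOn_finsetSum _ fun i hi => hz i (by
    have := (Finset.mem_Ico.mp hi).2
    omega)

lemma cont_hw {f : X → ℝ} (hf : ContinuousOn f I) : ContinuousOn (fun x => hw (f x)) I := by
  unfold hw
  exact (continuousOn_const.add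
    (continuousOn_const.sub (continuousOn_const.mul hf)).rexp).div_const _

lemma cont_hw1 {f : X → ℝ} (hf : ContinuousOn f I) : ContinuousOn (fun x => hw1 (f x)) I := by
  unfold hw1
  exact continuousOn_const.mul (continuousOn_const.sub (continuousOn_const.mul hf)).rexp

lemma cont_hw2 {f : X → ℝ} (hf : ContinuousOn f I) : ContinuousOn (fun x => hw2 (f x)) I := by
  unfold hw2
  exact continuousOn_const.mul (continuousOn_const.sub (continuousOn_const.mul hf)).rexp

lemma cont_Nq (hr : ∀ i, i ≤ n → ContinuousOn (fun x => r x i) I) :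
    ContinuousOn (fun x => Nq n κ a b (r x)) I := by
  unfold Nq
  exact (continuousOn_const.mul ((cont_qv hr 1).pow 2)).add (continuousOn_const.mul
    (continuousOn_finsetSum _ fun k _ => continuousOn_const.mul ((cont_qv hr k).pow 2)))

lemma cont_Sb (hr : ∀ i, i ≤ n → ContinuousOn (fun x => r x i) I) (i : ℕ) :
    ContinuousOn (fun x => Sb n κ a b (r x) i) I := by
  unfold Sb
  exact (continuousOn_const.mul (cont_qv hr 1)).add (continuousOn_const.mul
    (continuousOn_finsetSum _ fun k _ => continuousOn_const.mul (cont_qv hr k)))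

lemma cont_Ng (hr : ∀ i, i ≤ n → ContinuousOn (fun x => r x i) I)
    (hz : ∀ i, i ≤ n → ContinuousOn (fun x => z x i) I) :
    ContinuousOn (fun x => Ng n κ a b (r x) (z x)) I := by
  unfold Ng
  exact ((continuousOn_const.mul (cont_qv hr 1)).smul (cont_qv hz 1)).add
    (continuousOn_finsetSum _ fun k _ =>
      (continuousOn_const.mul (continuousOn_const.mul (cont_qv hr k))).smul (cont_qv hz k))

lemma cont_Sg (hz : ∀ i, i ≤ n → ContinuousOn (fun x => z x i) I) (i : ℕ) :
    ContinuousOn (fun x => Sg n κ a b (z x) i) I := by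
  unfold Sg
  exact (continuousOn_const.smul (cont_qv hz 1)).add
    (continuousOn_finsetSum _ fun k _ => continuousOn_const.smul (cont_qv hz k))

lemma cont_Ff (hr : ∀ i, i ≤ n → ContinuousOn (fun x => r x i) I)
    (h0 : ∀ x ∈ I, 0 < r x 0) (i : ℕ) :
    ContinuousOn (fun x => Ff n κ a b (r x) i) I := by
  unfold Ff
  have h1 : ContinuousOn (fun x => Ph1 (r x 0)) I :=
    cont_Ph1.comp (hr 0 n.zero_le) fun x hx => h0 x hx
  refine ContinuousOn.add ?_ (((cont_hw1 (cont_qv hr 0)).div_const _).mul (cont_Nq hr))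
  by_cases hi : i = 0
  · simpa only [hi, if_true] using h1
  · simp only [hi, if_false]
    exact (cont_qv hr 1).add ((cont_hw (cont_qv hr 0)).mul (cont_Sb hr i))

lemma cont_Gf (hr : ∀ i, i ≤ n → ContinuousOn (fun x => r x i) I)
    (h0 : ∀ x ∈ I, 0 < r x 0) (hz : ∀ i, i ≤ n → ContinuousOn (fun x => z x i) I) (i : ℕ) :
    ContinuousOn (fun x => Gf n κ a b (r x) (z x) i) I := by
  unfold Gf
  have h1 : ContinuousOn (fun x => Ph2 (r x 0)) I :=
    cont_Ph2.comp (hr 0 n.zero_le) fun x hx => h0 x hx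
  refine ContinuousOn.add (ContinuousOn.add ?_
    (((cont_hw1 (cont_qv hr 0)).div_const _).smul (cont_Ng hr hz)))
    ((((cont_hw2 (cont_qv hr 0)).div_const _).mul (cont_Nq hr)).smul (cont_qv hz 0))
  by_cases hi : i = 0
  · simp only [hi, if_true]
    exact h1.smul (hz 0 n.zero_le)
  · simp only [hi, if_false]
    exact ((cont_qv hz 1).add ((cont_hw (cont_qv hr 0)).smul (cont_Sg hz i))).add
      (((cont_hw1 (cont_qv hr 0)).mul (cont_Sb hr i)).smul (cont_qv hz 0))

end cont

/-! ### The inequality at a point -/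

section point

variable {p : ℕ}

lemma inner_sum (x y : Eu p) : inner ℝ x y = ∑ c, x c * y c := by
  simp only [PiLp.inner_apply, RCLike.inner_apply, conj_trivial]
  exact Finset.sum_congr rfl fun c _ => mul_comm _ _

/-- The quadratic form at a point. -/
lemma QfW_ge (hALG : AlgWStatement) {n : ℕ} {ρ : ℕ → ℝ} (hW : Win n ρ) {θ : ℝ} (hθ : 0 < θ)
    (θ' : Eu p) {f : ℕ → ℝ} (hf : ∀ i, i ≤ n → 0 < f i) (f' : ℕ → Eu p) :
    1 / 2 * (θ ^ 2 * ‖qv n (rg θ θ' f f') 1‖ ^ 2 + Kr ρ * ‖qv n f' 1‖ ^ 2) ≤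
      θ ^ 2 * QfW n ρ θ θ' f f' := by
  have hr : ∀ i, i ≤ n → 0 < f i / θ := fun i hi => div_pos (hf i hi) hθ
  have hrg : ∀ i, rg θ θ' f f' i = θ⁻¹ • f' i - (f i / θ) • θ⁻¹ • θ' := by
    intro i
    unfold rg
    rw [smul_sub, smul_comm]
  have hA := fun c : Fin p => hALG n (Kr ρ) (kr ρ) (fun i => f i / θ)
    (fun i => (θ⁻¹ • f' i : Eu p) c) ((θ⁻¹ • θ' : Eu p) c) hW.kap hr
    (fun i => rg θ θ' f f' i c) (fun i => by rw [hrg i]; simp)
  have hQ : QfW n ρ θ θ' f f' = ∑ c : Fin p,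
      (∑ i ∈ Finset.range (n + 1), rg θ θ' f f' i c *
          Gf n (kr ρ) (wa (Kr ρ)) (wb (Kr ρ)) (fun i => f i / θ) (fun i => rg θ θ' f f' i c) i
        + ∑ i ∈ Finset.Ico 1 (n + 1), (Kr ρ + kr ρ i) * (θ⁻¹ • f' i : Eu p) c *
          (Gf n (kr ρ) (wa (Kr ρ)) (wb (Kr ρ)) (fun i => f i / θ)
              (fun i => rg θ θ' f f' i c) i
            + (θ⁻¹ • θ' : Eu p) c *
              Ff n (kr ρ) (wa (Kr ρ)) (wb (Kr ρ)) (fun i => f i / θ) i)) := by
    unfold QfW
    rw [Finset.sum_add_distrib]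
    congr 1
    · rw [Finset.sum_comm]
      refine Finset.sum_congr rfl fun i _ => ?_
      rw [inner_sum]
      refine Finset.sum_congr rfl fun c _ => ?_
      rw [Gf_coord]
    · rw [Finset.sum_comm]
      refine Finset.sum_congr rfl fun i _ => ?_
      rw [inner_sum, Finset.mul_sum]
      refine Finset.sum_congr rfl fun c _ => ?_
      rw [PiLp.add_apply, Gf_coord]
      simp only [PiLp.smul_apply, smul_eq_mul]
      ring
  have hv : qv n f' 1 = θ • (qv n (rg θ θ' f f') 1 + qv n (fun i => f i / θ) 1 • θ⁻¹ • θ') := by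
    unfold qv
    rw [Finset.sum_smul, ← Finset.sum_add_distrib, Finset.smul_sum]
    refine Finset.sum_congr rfl fun i _ => ?_
    rw [hrg i, sub_add_cancel, smul_smul, mul_inv_cancel₀ hθ.ne', one_smul]
  have hv2 : ‖qv n f' 1‖ ^ 2 = θ ^ 2 *
      ‖qv n (rg θ θ' f f') 1 + qv n (fun i => f i / θ) 1 • θ⁻¹ • θ'‖ ^ 2 := by
    rw [hv, norm_smul, mul_pow, Real.norm_eq_abs, sq_abs]
  have hL : 1 / 2 * (‖qv n (rg θ θ' f f') 1‖ ^ 2 +
      Kr ρ * ‖qv n (rg θ θ' f f') 1 + qv n (fun i => f i / θ) 1 • θ⁻¹ • θ'‖ ^ 2) ≤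
      QfW n ρ θ θ' f f' := by
    rw [hQ]
    refine le_trans (le_of_eq ?_) (Finset.sum_le_sum fun c _ => hA c)
    rw [EuclideanSpace.real_norm_sq_eq, EuclideanSpace.real_norm_sq_eq, ← Finset.mul_sum,
      Finset.sum_add_distrib, ← Finset.mul_sum]
    have e1 : ∀ c : Fin p, (qv n (rg θ θ' f f') 1) c = qv n (fun i => rg θ θ' f f' i c) 1 :=
      fun c => qv_coord _ c
    have e2 : ∀ c : Fin p,
        (qv n (rg θ θ' f f') 1 + qv n (fun i => f i / θ) 1 • θ⁻¹ • θ' : Eu p) c =
        qv n (fun i => rg θ θ' f f' i c) 1 +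
          qv n (fun i => f i / θ) 1 * (θ⁻¹ • θ' : Eu p) c := by
      intro c
      rw [PiLp.add_apply, e1 c]
      simp only [PiLp.smul_apply, smul_eq_mul]
    simp only [e1, e2]
  rw [hv2]
  calc 1 / 2 * (θ ^ 2 * ‖qv n (rg θ θ' f f') 1‖ ^ 2 + Kr ρ * (θ ^ 2 *
      ‖qv n (rg θ θ' f f') 1 + qv n (fun i => f i / θ) 1 • θ⁻¹ • θ'‖ ^ 2))
      = θ ^ 2 * (1 / 2 * (‖qv n (rg θ θ' f f') 1‖ ^ 2 +
      Kr ρ * ‖qv n (rg θ θ' f f') 1 + qv n (fun i => f i / θ) 1 • θ⁻¹ • θ'‖ ^ 2)) := by ring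
    _ ≤ _ := mul_le_mul_of_nonneg_left hL (sq_nonneg θ)

end point

/-! ### The module -/

theorem dsw_st (hDVW : DvwStatement) (hALG : AlgWStatement) : DswStatement := by
  intro p Ω q m θ θ' θ'' n ρ u v w hsol hW hst t ht
  have hΩ := hsol.dom
  have cu : ∀ i, i ≤ n → ContinuousOn (u i t) (closure Ω) := fun i hi => (hsol.evo i hi).c0 ht.le
  have cv : ∀ i, i ≤ n → ContinuousOn (v i t) (closure Ω) := fun i hi =>
    ((hsol.evo i hi).C1 ht).c1
  have cθ : ContinuousOn θ (closure Ω) := hst.c2.toC1.c0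
  have cθ' : ContinuousOn θ' (closure Ω) := hst.c2.toC1.c1
  have cθi : ContinuousOn (fun x => (θ x)⁻¹) (closure Ω) :=
    cθ.inv₀ fun x hx => (hst.pos x hx).ne'
  have cr : ∀ i, i ≤ n → ContinuousOn (fun x => u i t x / θ x) (closure Ω) := fun i hi =>
    (cu i hi).div cθ fun x hx => (hst.pos x hx).ne'
  have pr : ∀ i, i ≤ n → ∀ x ∈ closure Ω, 0 < u i t x / θ x := fun i hi x hx =>
    div_pos (hsol.pos i hi t ht x hx) (hst.pos x hx)
  have crg : ∀ i, i ≤ n → ContinuousOn
      (fun x => rg (θ x) (θ' x) (fun i => u i t x) (fun i => v i t x) i) (closure Ω) := by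
    intro i hi
    unfold rg
    exact cθi.smul ((cv i hi).sub ((cr i hi).smul cθ'))
  have cF : ∀ i, ContinuousOn (fun x => Ff n (kr ρ) (wa (Kr ρ)) (wb (Kr ρ))
      (fun i => u i t x / θ x) i) (closure Ω) := fun i =>
    cont_Ff (r := fun x i => u i t x / θ x) cr (pr 0 n.zero_le) i
  have cG : ∀ i, ContinuousOn (fun x => Gf n (kr ρ) (wa (Kr ρ)) (wb (Kr ρ))
      (fun i => u i t x / θ x) (rg (θ x) (θ' x) (fun i => u i t x) (fun i => v i t x)) i)
      (closure Ω) := fun i =>
    cont_Gf (r := fun x i => u i t x / θ x)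
      (z := fun x => rg (θ x) (θ' x) (fun i => u i t x) (fun i => v i t x)) cr
      (pr 0 n.zero_le) crg i
  have cQ : ContinuousOn (fun x => QfW n ρ (θ x) (θ' x) (fun i => u i t x)
      (fun i => v i t x)) (closure Ω) := by
    unfold QfW
    refine ContinuousOn.add (continuousOn_finsetSum _ fun i hi => ?_)
      (continuousOn_finsetSum _ fun i hi => ?_)
    · have hi' : i ≤ n := Nat.lt_succ_iff.mp (Finset.mem_range.mp hi)
      exact (crg i hi').inner (cG i)
    · have hi' : i ≤ n := by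
        have := (Finset.mem_Ico.mp hi).2
        omega
      exact continuousOn_const.mul ((cθi.smul (cv i hi')).inner
        ((cG i).add ((cF i).smul (cθi.smul cθ'))))
  have cR : ContinuousOn (fun x => ReW n ρ (θ x) (fun i => u i t x)) (closure Ω) := by
    unfold ReW
    refine ((cont_qv (z := fun x i => u i t x / θ x) cr 0).sub continuousOn_const).mul
      (continuousOn_finsetSum _ fun i hi => ?_)
    have hi' : i ≤ n := Nat.lt_succ_iff.mp (Finset.mem_range.mp hi)
    exact (cr i hi').mul (cF i)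
  refine ⟨_, hDVW p Ω q m θ θ' θ'' n ρ u v w hsol hW hst t ht, ?_⟩
  rw [← integral_neg]
  refine setIntegral_mono_on ?_ ?_ hΩ.measurableSet ?_
  · exact hΩ.integrableOn ((continuousOn_const.mul ((cθ.pow 2).mul cQ)).neg.sub
      ((cθ.pow 3).mul cR))
  · refine hΩ.integrableOn (ContinuousOn.neg ?_)
    unfold DxW
    exact (continuousOn_const.mul (((cθ.pow 2).mul
      ((cont_qv (z := fun x => rg (θ x) (θ' x) (fun i => u i t x) (fun i => v i t x))
        crg 1).norm.pow 2)).add (continuousOn_const.mul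
          ((cont_qv (z := fun x i => v i t x) cv 1).norm.pow 2)))).add ((cθ.pow 3).mul cR)
  · intro x hxΩ
    have hx : x ∈ closure Ω := subset_closure hxΩ
    have h1 := QfW_ge hALG hW (hst.pos x hx) (θ' x) (f := fun i => u i t x)
      (fun i hi => hsol.pos i hi t ht x hx) (fun i => v i t x)
    have h2 := mul_le_mul_of_nonneg_left h1 hW.ord.pos.le
    unfold DxW
    linarith

end Pool.Agent.Lib.MP_4fbe7c_an.WN.H69
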